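import Mathlib
import Pool.Agent.R352.MG.C

set_option autoImplicit false

/-! Representations of the mapping class group `Mod_g` of dimension less than `binom (g - 5) k` in
characteristic `p`: powers of Dehn twists are killed; in characteristic two and quadratic dimension
the kernel is a congruence subgroup, by Humphries' theorem on squares of Dehn twists. -/

namespace Pool.Agent.Results.MP_59b15d_al.CharacteristicTwo

open Pool.Agent.H29R2.MG Pool.Agent.TH35.MG Pool.Agent.R352.MG

universe u

/-- `t` is a Dehn twist about a nonseparating curve: a conjugate of the class of the automorphism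
`b_0 ↦ b_0 a_0` of the surface group fixing the other generators -/
def NonsepTwist {g : ℕ} (t : Mod g) : Prop := ∃ T : Mod g, IsTwistAt g 0 T ∧ IsConj T t

/-- the normal closure in `Mod_g` of the squares of the Dehn twists about nonseparating curves -/
def squares (g : ℕ) : Subgroup (Mod g) :=
  Subgroup.normalClosure {s | ∃ t : Mod g, NonsepTwist t ∧ s = t * t}

/-- `φ` acts trivially on `H_1(S; ℤ/2)` -/
def TrivialOnHomologyModTwo {g : ℕ} (φ : MulAut (SurfaceGroup g)) : Prop :=
  ∀ (x : SurfaceGroup g) (j : Fin g ⊕ Fin g), (2 : ℤ) ∣ homologyClass (φ x) j - homologyClass x j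

/-- the mapping class of an orientation-preserving automorphism -/
def classOf {g : ℕ} (φ : orientedAut g) : Mod g :=
  (QuotientGroup.mk φ : orientedAut g ⧸ innerAut g)

/-- Humphries' theorem for `Mod_g` (a known theorem): every mapping class acting trivially on
`H_1(S; ℤ/2)` is in the normal closure of the squares of the Dehn twists about nonseparating
curves. -/
def HumphriesTheorem (g : ℕ) : Prop :=
  ∀ φ : orientedAut g, TrivialOnHomologyModTwo (φ : MulAut (SurfaceGroup g)) →
    classOf φ ∈ squares g

/-- `φ` acts on `π_1(S) / Γ` as an inner automorphism -/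
def InnerMod {g : ℕ} (Γ : Subgroup (SurfaceGroup g)) (φ : MulAut (SurfaceGroup g)) : Prop :=
  ∃ y : SurfaceGroup g, ∀ x : SurfaceGroup g, φ x * (y * x * y⁻¹)⁻¹ ∈ Γ

/-- the elements of the surface group with homology class divisible by two -/
def gammaTwo (g : ℕ) : Subgroup (SurfaceGroup g) where
  carrier := {x | ∀ j, (2 : ℤ) ∣ homologyClass x j}
  one_mem' := by
    intro j
    have h : homologyClass (1 : SurfaceGroup g) = 0 := by
      unfold homologyClass
      rw [map_one]
      rfl
    rw [h]
    simp
  mul_mem' := by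
    intro x y hx hy j
    have h : homologyClass (x * y) = homologyClass x + homologyClass y := by
      unfold homologyClass
      rw [map_mul]
      rfl
    rw [h]
    exact dvd_add (hx j) (hy j)
  inv_mem' := by
    intro x hx j
    have h : homologyClass x⁻¹ = - homologyClass x := by
      unfold homologyClass
      rw [map_inv]
      rfl
    rw [h]
    exact (dvd_neg.2 (hx j))

theorem class_mul {g : ℕ} (x y : SurfaceGroup g) :
    homologyClass (x * y) = homologyClass x + homologyClass y := by
  unfold homologyClass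
  rw [map_mul]
  rfl

theorem class_inv {g : ℕ} (x : SurfaceGroup g) : homologyClass x⁻¹ = - homologyClass x := by
  unfold homologyClass
  rw [map_inv]
  rfl

/-- the homology class modulo two -/
def modTwo (g : ℕ) : SurfaceGroup g →* Multiplicative (Fin g ⊕ Fin g → ZMod 2) where
  toFun x := Multiplicative.ofAdd (fun j => ((homologyClass x j : ℤ) : ZMod 2))
  map_one' := by
    have h : homologyClass (1 : SurfaceGroup g) = 0 := by
      unfold homologyClass
      rw [map_one]
      rfl
    rw [h]
    simp
    rfl
  map_mul' x y := by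
    rw [class_mul]
    apply Multiplicative.toAdd.injective
    funext j
    simp

theorem gammaTwo_eq (g : ℕ) : gammaTwo g = (modTwo g).ker := by
  ext x
  rw [MonoidHom.mem_ker]
  constructor
  · intro h
    apply Multiplicative.toAdd.injective
    funext j
    have := (ZMod.intCast_zmod_eq_zero_iff_dvd (homologyClass x j) 2).2 (by exact_mod_cast h j)
    simpa [modTwo] using this
  · intro h j
    have h1 := congrArg Multiplicative.toAdd h
    have h2 := congrFun h1 j
    have h3 : ((homologyClass x j : ℤ) : ZMod 2) = 0 := by simpa [modTwo] using h2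
    exact_mod_cast (ZMod.intCast_zmod_eq_zero_iff_dvd (homologyClass x j) 2).1 h3

/-- homomorphisms from the surface group to `ℤ^{2g}` are determined by the homology class -/
theorem linear {g : ℕ} (ψ : SurfaceGroup g →* Multiplicative (Fin g ⊕ Fin g → ℤ))
    (x : SurfaceGroup g) :
    Multiplicative.toAdd (ψ x) = ∑ j, homologyClass x j • Multiplicative.toAdd (ψ (gen j)) := by
  let L : SurfaceGroup g →* Multiplicative (Fin g ⊕ Fin g → ℤ) :=
    { toFun := fun x => Multiplicative.ofAdd
        (∑ j, homologyClass x j • Multiplicative.toAdd (ψ (gen j)))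
      map_one' := by
        have h : homologyClass (1 : SurfaceGroup g) = 0 := by
          unfold homologyClass
          rw [map_one]
          rfl
        rw [h]
        simp
      map_mul' := by
        intro x y
        rw [class_mul, ← ofAdd_add, ← Finset.sum_add_distrib]
        congr 1
        refine Finset.sum_congr rfl fun j _ => ?_
        rw [Pi.add_apply, add_smul] }
  have hL : ψ = L := by
    apply surface_ext
    intro i
    have hc : homologyClass (gen i : SurfaceGroup g) = Pi.single i 1 := by
      unfold homologyClass homologyHom gen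
      rw [outHom_mk]
      simp [freeHom]
    show ψ (gen i) = Multiplicative.ofAdd _
    rw [hc]
    rw [Finset.sum_eq_single i]
    · simp
    · intro j _ hj
      rw [Pi.single_eq_of_ne hj, zero_smul]
    · intro h
      exact absurd (Finset.mem_univ i) h
  have h := DFunLike.congr_fun hL x
  rw [h]
  rfl

theorem gammaTwo_char (g : ℕ) : (gammaTwo g).Characteristic := by
  rw [Subgroup.characteristic_iff_le_comap]
  intro φ x hx
  rw [Subgroup.mem_comap]
  intro j
  have h := linear ((homologyHom g).comp φ.toMonoidHom) x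
  have h1 : homologyClass (φ x) = ∑ i, homologyClass x i •
      Multiplicative.toAdd (((homologyHom g).comp φ.toMonoidHom) (gen i)) := h
  show (2 : ℤ) ∣ homologyClass (φ x) j
  rw [h1, Finset.sum_apply]
  refine Finset.dvd_sum fun i _ => ?_
  rw [Pi.smul_apply, smul_eq_mul]
  exact (hx i).mul_right _

theorem gammaTwo_fin (g : ℕ) : (gammaTwo g).FiniteIndex := by
  rw [gammaTwo_eq]
  infer_instance

theorem trivial_of_inner {g : ℕ} {φ : MulAut (SurfaceGroup g)} (h : InnerMod (gammaTwo g) φ) :
    TrivialOnHomologyModTwo φ := by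
  obtain ⟨y, hy⟩ := h
  intro x j
  have h1 := hy x j
  rw [class_mul, class_inv, class_mul, class_mul, class_inv] at h1
  have h2 : (homologyClass (φ x) + -(homologyClass y + homologyClass x + -homologyClass y)) j =
      homologyClass (φ x) j - homologyClass x j := by
    simp only [Pi.add_apply, Pi.neg_apply]
    ring
  rwa [h2] at h1

/-- `(M - 1)^q = M^q - 1` if `q` is a power of the characteristic -/
theorem pow_char {p : ℕ} [Fact p.Prime] {K : Type u} [Field K] [CharP K p] {d : ℕ}
    (M : Matrix (Fin d) (Fin d) K) (r : ℕ) : (M - 1) ^ (p ^ r) = M ^ (p ^ r) - 1 := by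
  have h : ((Polynomial.X : Polynomial K) - 1) ^ (p ^ r) = Polynomial.X ^ (p ^ r) - 1 := by
    rw [sub_pow_char_pow, one_pow]
  have h2 := congrArg (Polynomial.aeval M) h
  simpa using h2

/-- in characteristic `p` the twists have order dividing `p^r` in small representations -/
theorem twist_pow {g k d p r : ℕ} [Fact p.Prime] (hk : 1 ≤ k) (hkg : k + 5 ≤ g)
    (h1 : d < (g - 5).choose k) (h2 : d < 2 ^ (g - 4 - k)) (hkp : k ≤ p ^ r)
    {K : Type u} [Field K] [CharP K p]
    (f : Mod g →* Matrix.GeneralLinearGroup (Fin d) K) {t : Mod g} (ht : NonsepTwist t) :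
    f (t ^ (p ^ r)) = 1 := by
  obtain ⟨T, hT, hc⟩ := ht
  obtain ⟨c, hc⟩ := isConj_iff.1 hc
  have h3 := unip_mod hk hkg h1 h2 f T hT
  have h4 : ((f T : Matrix (Fin d) (Fin d) K) - 1) ^ (p ^ r) = 0 := by
    rw [← Nat.sub_add_cancel hkp, pow_add, h3, mul_zero]
  rw [pow_char, sub_eq_zero] at h4
  have h5 : f (T ^ (p ^ r)) = 1 := by
    apply Units.ext
    rw [map_pow, Units.val_pow_eq_pow_val, h4]
    rfl
  rw [← hc, conj_pow, map_mul, map_mul, h5, mul_one, map_inv, mul_inv_cancel]

theorem choose_two_le {M : ℕ} (hM : 1 ≤ M) : M.choose 2 ≤ 2 ^ (M - 1) := by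
  induction M, hM using Nat.le_induction with
  | base => decide
  | succ M h ih =>
    have e : (M + 1).choose 2 = M + M.choose 2 := by
      rw [Nat.choose_succ_succ' M 1, Nat.choose_one_right]
    have h1 : M ≤ 2 ^ (M - 1) := by
      have := Nat.lt_two_pow_self (n := M - 1)
      omega
    have h2 : 2 ^ (M + 1 - 1) = 2 ^ (M - 1) + 2 ^ (M - 1) := by
      rw [← mul_two, ← pow_succ]
      congr 1
      omega
    omega

theorem choose_le_pow {M k : ℕ} (h : 5 * k ≤ M) : M.choose k ≤ 2 ^ (M - k) := by
  have h1 : M.choose k * 4 ^ (M - k) ≤ 5 ^ M := by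
    have h2 := add_pow 1 4 M
    have h3 : (1 : ℕ) ^ k * 4 ^ (M - k) * (M.choose k) ≤
        ∑ m ∈ Finset.range (M + 1), (1 : ℕ) ^ m * 4 ^ (M - m) * (M.choose m) :=
      Finset.single_le_sum (f := fun m => (1 : ℕ) ^ m * 4 ^ (M - m) * (M.choose m))
        (fun i _ => Nat.zero_le _) (Finset.mem_range.2 (by omega))
    have h4 : (1 + 4 : ℕ) ^ M =
        ∑ m ∈ Finset.range (M + 1), (1 : ℕ) ^ m * 4 ^ (M - m) * (M.choose m) := by
      rw [add_pow]
      rfl
    rw [← h4, one_pow, one_mul] at h3
    calc M.choose k * 4 ^ (M - k) = 4 ^ (M - k) * M.choose k := mul_comm _ _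
      _ ≤ (1 + 4) ^ M := h3
      _ = 5 ^ M := by norm_num
  have h5 : 5 ^ M ≤ 4 ^ (M - k) * 2 ^ (M - k) := by
    rw [← mul_pow]
    norm_num
    have h6 : (5 ^ M) ^ 5 ≤ (8 ^ (M - k)) ^ 5 := by
      calc (5 ^ M) ^ 5 = (5 ^ 5) ^ M := by rw [← pow_mul, ← pow_mul, mul_comm]
        _ ≤ (8 ^ 4) ^ M := Nat.pow_le_pow_left (by norm_num) _
        _ = 8 ^ (4 * M) := by rw [← pow_mul]
        _ ≤ 8 ^ ((M - k) * 5) := Nat.pow_le_pow_right (by norm_num) (by omega)
        _ = (8 ^ (M - k)) ^ 5 := by rw [← pow_mul]
    exact (Nat.pow_le_pow_iff_left (by norm_num)).1 h6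
  have h7 : M.choose k * 4 ^ (M - k) ≤ 2 ^ (M - k) * 4 ^ (M - k) :=
    h1.trans (h5.trans_eq (mul_comm _ _))
  exact Nat.le_of_mul_le_mul_right h7 (by positivity)

theorem squares_le {g d : ℕ} (hd : d < (g - 5).choose 2) {K : Type u} [Field K] [CharP K 2]
    (f : Mod g →* Matrix.GeneralLinearGroup (Fin d) K) : squares g ≤ f.ker := by
  have hM : 2 ≤ g - 5 := by
    by_contra hcon
    rw [Nat.choose_eq_zero_of_lt (by omega)] at hd
    omega
  have h5 : d < 2 ^ (g - 4 - 2) := by
    have := choose_two_le (M := g - 5) (by omega)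
    rw [show g - 5 - 1 = g - 4 - 2 by omega] at this
    omega
  have : Fact (Nat.Prime 2) := ⟨Nat.prime_two⟩
  refine Subgroup.normalClosure_le_normal ?_
  rintro s ⟨t, ht, rfl⟩
  have h6 := twist_pow (p := 2) (r := 1) (by omega) (by omega) hd h5 (by norm_num) f ht
  show t * t ∈ f.ker
  rw [MonoidHom.mem_ker, ← pow_two]
  simpa using h6

/-- in a quotient where the squares of `s`, `t` are trivial and `s`, `t` satisfy the braid relation,
`(s t)^3 = 1` -/
theorem braid_cube {G : Type*} [Group G] {a b : G} (ha : a * a = 1) (hb : b * b = 1)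
    (h : a * b * a = b * a * b) : (a * b) ^ 3 = 1 := by
  have e : (a * b) ^ 3 = (a * b * a) * (b * a * b) := by
    rw [pow_succ, pow_two]
    simp only [mul_assoc]
  rw [e, ← h]
  calc a * b * a * (a * b * a) = a * b * (a * a) * b * a := by simp only [mul_assoc]
    _ = a * (b * b) * a := by rw [ha, mul_one, mul_assoc a b b]
    _ = 1 := by rw [hb, mul_one, ha]

theorem genus_one {g : ℕ} {H : Type*} [Group H] (f : Mod g →* H) (hf : squares g ≤ f.ker)
    {s t : Mod g} (hs : NonsepTwist s) (ht : NonsepTwist t) (h : s * t * s = t * s * t) :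
    f ((s * t) ^ 3) = 1 := by
  have h1 : ∀ r : Mod g, NonsepTwist r → f r * f r = 1 := by
    intro r hr
    rw [← map_mul]
    exact hf (Subgroup.subset_normalClosure ⟨r, hr, rfl⟩)
  rw [map_pow, map_mul]
  exact braid_cube (h1 s hs) (h1 t ht) (by
    rw [← map_mul, ← map_mul, ← map_mul, ← map_mul, h])

/-- the kernel of a homomorphism `Mod_g → GL_d(K)` -/
def Kernel {g d : ℕ} {K : Type u} [Field K] (f : Mod g →* Matrix.GeneralLinearGroup (Fin d) K) :
    Subgroup (Mod g) := f.ker

/-- the `n`-th powers of all nonseparating twists are in the kernel of `f` -/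
def KillsTwistPower {g d : ℕ} {K : Type u} [Field K] (n : ℕ)
    (f : Mod g →* Matrix.GeneralLinearGroup (Fin d) K) : Prop :=
  ∀ t : Mod g, NonsepTwist t → t ^ n ∈ Kernel f

/-- (1): the order of the images of the nonseparating twists in small representations in
characteristic `p > 0` -/
def TwistPowersKilled (g : ℕ) : Prop :=
  ∀ k d : ℕ, 1 ≤ k → k + 5 ≤ g → d < (g - 5).choose k →
    (5 * k + 5 ≤ g ∨ d < 2 ^ (g - 4 - k)) → ∀ p r : ℕ, p.Prime → k ≤ p ^ r →
      ∀ (K : Type u) [Field K], CharP K p →
        ∀ f : Mod g →* Matrix.GeneralLinearGroup (Fin d) K, KillsTwistPower (p ^ r) f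

/-- the subgroup `N` of `Mod_g` contains `(s t)^3` for all nonseparating twists `s`, `t` with
`s t s = t s t` -/
def ContainsCubes {g : ℕ} (N : Subgroup (Mod g)) : Prop :=
  ∀ s t : Mod g, NonsepTwist s → NonsepTwist t → s * t * s = t * s * t → (s * t) ^ 3 ∈ N

/-- (2): the kernels in characteristic two and quadratic dimension -/
def SquaresKilled (g : ℕ) : Prop :=
  ∀ d : ℕ, d < (g - 5).choose 2 → ∀ (K : Type u) [Field K], CharP K 2 →
    ∀ f : Mod g →* Matrix.GeneralLinearGroup (Fin d) K,
      squares g ≤ Kernel f ∧ ContainsCubes (Kernel f)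

/-- the subgroup `N` of `Mod_g` contains the classes of all orientation-preserving automorphisms
acting on `π_1(S) / Γ` as an inner automorphism -/
def ContainsCongruence {g : ℕ} (Γ : Subgroup (SurfaceGroup g)) (N : Subgroup (Mod g)) : Prop :=
  ∀ φ : orientedAut g, InnerMod Γ (φ : MulAut (SurfaceGroup g)) → classOf φ ∈ N

/-- (3): the kernels in characteristic two and quadratic dimension contain one congruence
subgroup -/
def CongruenceKernels (g : ℕ) : Prop :=
  ∃ Γ : Subgroup (SurfaceGroup g), Γ.Characteristic ∧ Γ.FiniteIndex ∧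
    ∀ d : ℕ, d < (g - 5).choose 2 → ∀ (K : Type u) [Field K], CharP K 2 →
      ∀ f : Mod g →* Matrix.GeneralLinearGroup (Fin d) K, ContainsCongruence Γ (Kernel f)

/-- Let `g` be the genus.
(1) Let `1 ≤ k`, `k + 5 ≤ g`, `d < binom (g - 5) k`, and `5 k + 5 ≤ g` or `d < 2 ^ (g - 4 - k)`. For
every field `K` of characteristic `p > 0`, every homomorphism `f : Mod_g → GL_d(K)`, every `r` with
`k ≤ p ^ r` and every Dehn twist `t` about a nonseparating curve, `f(t) ^ (p ^ r) = 1`.
(2) If `d < binom (g - 5) 2` and `K` has characteristic two, the kernel of every homomorphism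
`f : Mod_g → GL_d(K)` contains the normal closure of the squares of the nonseparating twists, and
`(s t)^3` for any two nonseparating twists `s`, `t` with `s t s = t s t` (the chain relation says that
`(s t)^6` is the twist about a separating curve of genus one).
(3) Let `Γ` be the group of the elements of `π_1(S)` which are zero in `H_1(S; ℤ/2)`; it is
characteristic and of finite index. By Humphries' theorem for `Mod_g` (assumed here), the kernels in
(2) contain the classes of all orientation-preserving automorphisms which act on `π_1(S) / Γ` as an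
inner automorphism: they contain a congruence subgroup, the same for all `d`, `K` and `f`. -/
theorem result (g : ℕ) :
    TwistPowersKilled.{u} g ∧ SquaresKilled.{u} g ∧
      (HumphriesTheorem g → CongruenceKernels.{u} g) := by
  refine ⟨?_, ?_, ?_⟩
  · intro k d hk hkg hd hd' p r hp hkp K _ hK f t ht
    have h2 : d < 2 ^ (g - 4 - k) := by
      rcases hd' with h | h
      · have h3 := choose_le_pow (M := g - 5) (k := k) (by omega)
        have h4 : 2 ^ (g - 5 - k) ≤ 2 ^ (g - 4 - k) :=
          Nat.pow_le_pow_right (by norm_num) (by omega)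
        omega
      · exact h
    have : Fact p.Prime := ⟨hp⟩
    exact MonoidHom.mem_ker.2 (twist_pow hk hkg hd h2 hkp f ht)
  · intro d hd K _ hK f
    exact ⟨squares_le hd f, fun s t hs ht h => genus_one f (squares_le hd f) hs ht h⟩
  · intro hH
    refine ⟨gammaTwo g, gammaTwo_char g, gammaTwo_fin g, ?_⟩
    intro d hd K _ hK f φ hφ
    exact squares_le hd f (hH φ (trivial_of_inner hφ))

end Pool.Agent.Results.MP_59b15d_al.CharacteristicTwo
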