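import Pool.Agent.R569.CS.Main

/-!
# Congruence subgroups of mapping class groups and virtually nilpotent quotients

Let `G` be the fundamental group of a closed orientable surface of genus `g ≥ 2`, and let `Γ` be a
characteristic subgroup of finite index of `G`, with the lower central series
`Γ = γ_1 Γ ≥ γ_2 Γ = [Γ, Γ] ≥ ...` (in Mathlib `Γ.lowerCentralSeries c = γ_{c+1} Γ`). Let
`Torelli Γ` be the group of the automorphisms of `G` which induce the identity on `G / Γ` and on
`Γ / [Γ, Γ]`; for `Γ = G` it is the Torelli group (of the surface with a base point).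

(1) Every subgroup of finite index of `Torelli Γ` which contains the automorphisms in `Torelli Γ`
acting trivially on `G / γ_{c+1} Γ`, for some `c`, contains the automorphisms in `Torelli Γ` acting
trivially on `G / K` for some characteristic subgroup `K` of finite index of `G`.

(2) Suppose that every subgroup of finite index of `Aut (G)` which contains `Torelli Γ` is a
congruence subgroup (contains the automorphisms acting trivially on `G / K` for some characteristic
`K` of finite index). This is a property of the arithmetic action of `Aut (G)` on `G / Γ` and on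
the homology `H_1(Γ) = Γ / [Γ, Γ]` of the covering; for `Γ = G` it holds by the theorem of Bass,
Milnor and Serre on `Sp_2g(ℤ)`. Then every subgroup of finite index of `Mod_S = Out (G)` which
contains the kernel of the action of `Mod_S` on `G / γ_{c+1} Γ`, for some `c`, contains a congruence
subgroup of `Mod_S`.

For `Γ = G` the kernels in (2) are the terms of the Johnson filtration. A subgroup `R` with `G / R`
virtually nilpotent contains some `γ_{c+1} Γ`, so (2) for all `Γ` reduces the congruence subgroup
property for all virtually nilpotent quotients to the homology of the finite coverings.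

Proof. Let `T_i` be the group of the elements of `Aut (G)` acting trivially on `G / γ_i Γ` and on
`γ_i Γ / γ_{i+1} Γ`. The map `u ↦ (u(x) x⁻¹)`, `x` in a finite set of generators, is a homomorphism
of `T_i` to a power of the centre `C` of the finitely generated nilpotent group `Γ / γ_{i+1} Γ`,
and the kernel is the group `S_{i+1}` of the elements acting trivially on `G / γ_{i+1} Γ`. We have
`S_i = T_i` for `i ≥ 2`. Let `V` be a subgroup of finite index which contains `S_{i+1}`. As `C` is
finitely generated, there is an `m` such that all `u` in `T_i` with `m`-th powers in `C` as values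
are in `V`, and by the residual finiteness of nilpotent groups there is `K` such that
`K ∩ γ_i Γ` is contained in these `m`-th powers. So the elements of `T_i` acting trivially on
`G / K` are in `V`. Now the property for `(V ∩ V_K) T_i`, `V_K` the automorphisms acting trivially
on `G / K`, implies the property for `V`.
-/

set_option autoImplicit false

namespace Pool.Agent.Results.MP_59b15d_al.VirtuallyNilpotentQuotients

/-- The group of the automorphisms of `G` inducing the identity on `G / Γ` and on `Γ / [Γ, Γ]`. -/
def Torelli {G : Type} [Group G] (Γ : Subgroup G) [Γ.Normal] : Subgroup (MulAut G) :=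
  R569.CS.lay (MonoidHom.id (MulAut G)) Γ ⁅Γ, Γ⁆

/-- The definition of `Torelli`, written out. -/
theorem mem_Torelli {G : Type} [Group G] (Γ : Subgroup G) [Γ.Normal] (φ : MulAut G) :
    φ ∈ Torelli Γ ↔ (∀ x, φ x * x⁻¹ ∈ Γ) ∧ ∀ x ∈ Γ, φ x * x⁻¹ ∈ ⁅Γ, Γ⁆ := Iff.rfl

/-- `G` is the fundamental group of a closed orientable surface of genus `g`. -/
def IsSurfaceGroup (g : ℕ) (G : Type) [Group G] : Prop :=
  Nonempty (G ≃* PresentedGroup
    ({(List.ofFn (fun i : Fin g =>
        FreeGroup.of (Sum.inl i : Fin g ⊕ Fin g) *
        FreeGroup.of (Sum.inr i : Fin g ⊕ Fin g) *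
        (FreeGroup.of (Sum.inl i : Fin g ⊕ Fin g))⁻¹ *
        (FreeGroup.of (Sum.inr i : Fin g ⊕ Fin g))⁻¹)).prod} :
      Set (FreeGroup (Fin g ⊕ Fin g))))

/-- Let `G` be the fundamental group of a closed orientable surface of genus `g ≥ 2` and `Γ` a
characteristic subgroup of finite index. (1) The subgroups of finite index of `Torelli Γ` containing
the elements acting trivially on `G / γ_{c+1} Γ` contain the elements acting trivially on `G / K`
for some characteristic subgroup `K` of finite index. (2) If all subgroups of finite index of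
`Aut (G)` containing `Torelli Γ` are congruence subgroups then all subgroups of finite index of
`Out (G)` containing the kernel of the action on `G / γ_{c+1} Γ` contain a congruence subgroup. -/
theorem result (g : ℕ) (_ : 2 ≤ g) (G : Type) [Group G] (hG : IsSurfaceGroup g G)
    (Γ : Subgroup G) [Γ.Characteristic] [Γ.FiniteIndex] :
    (∀ (c : ℕ) (V : Subgroup (Torelli Γ)), V.FiniteIndex →
      (∀ a : Torelli Γ, (∀ x, a.1 x * x⁻¹ ∈ Γ.lowerCentralSeries c) → a ∈ V) →
      ∃ K : Subgroup G, K.Characteristic ∧ K.FiniteIndex ∧
        ∀ a : Torelli Γ, (∀ x, a.1 x * x⁻¹ ∈ K) → a ∈ V) ∧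
    ((∀ V : Subgroup (MulAut G), V.FiniteIndex → Torelli Γ ≤ V →
        ∃ K : Subgroup G, K.Characteristic ∧ K.FiniteIndex ∧
          ∀ φ : MulAut G, (∀ x, φ x * x⁻¹ ∈ K) → φ ∈ V) →
      ∀ (c : ℕ) (H : Subgroup (MulAut G)), H.FiniteIndex → (∀ x : G, MulAut.conj x ∈ H) →
        (∀ φ : MulAut G,
          (∃ g : G, ∀ x : G, φ x * (g * x * g⁻¹)⁻¹ ∈ Γ.lowerCentralSeries c) → φ ∈ H) →
        ∃ K : Subgroup G, K.Characteristic ∧ K.FiniteIndex ∧
          ∀ φ : MulAut G, (∃ g : G, ∀ x : G, φ x * (g * x * g⁻¹)⁻¹ ∈ K) → φ ∈ H) := by
  have hfg : Group.FG G := by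
    obtain ⟨e⟩ := hG
    exact Group.fg_of_surjective (f := e.symm.toMonoidHom.comp (PresentedGroup.mk _))
      (e.symm.surjective.comp (PresentedGroup.mk_surjective _))
  refine ⟨fun c V hV h => R569.CS.torelli_csp Γ c V hV h, fun hyp c H hH hinn hc => ?_⟩
  refine R569.CS.outer_csp Γ (fun V hV h => ?_) c H hH hinn hc
  exact hyp V hV (fun φ hφ => h φ hφ.1 hφ.2)

end Pool.Agent.Results.MP_59b15d_al.VirtuallyNilpotentQuotients
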